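import Pool.Agent.H62.Final

/-!
Omega result for the sup norm of the Moebius exponential sum.
-/

namespace Pool.Agent.Helper5.Reserve.SupNormOmega

/-- There is `c > 0` such that for infinitely many `R` the sup norm of
`F_R (x) = ∑_{n ≤ R} μ(n) e(n x)` exceeds
`√R * exp (c * logloglog R / loglogloglog R)`. -/
theorem result : ∃ c : ℝ, 0 < c ∧ ∀ R₀ : ℕ, ∃ R : ℕ, R₀ ≤ R ∧ ∃ x ∈ Set.Icc (0 : ℝ) 1,
    Real.sqrt R * Real.exp (c * (Real.log (Real.log (Real.log R)) /
      Real.log (Real.log (Real.log (Real.log R))))) <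
    ‖∑ n ∈ Finset.Icc 1 R, ((ArithmeticFunction.moebius n : ℤ) : ℂ) *
      Complex.exp (2 * Real.pi * Complex.I * n * x)‖ := by
  refine ⟨1 / 1000, by norm_num, fun R₀ => ?_⟩
  by_contra hcon
  push Not at hcon
  refine Pool.Agent.H62.omega_aux (R₀ := R₀) (fun R hR x => ?_)
  rw [Pool.Agent.H62.FF_fract]
  exact hcon R hR (Int.fract x) ⟨Int.fract_nonneg x, (Int.fract_lt_one x).le⟩

end Pool.Agent.Helper5.Reserve.SupNormOmega
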